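import Pool.Agent.Helper35.HSF.StB

/-!
# Project HSF (MP_925021_gt), module PRS: the pinching is preserved
-/

set_option autoImplicit false

namespace Helper64.HSF

open Helper35.HSF Helper35.MS Helper35.PI Helper35.PI2 Helper32.CL
open scoped ContDiff Manifold Topology ENNReal BigOperators
open MeasureTheory Set Filter

section Scale

variable {n N : ℕ} {M : Type} [TopologicalSpace M] [ChartedSpace (EE n) M]

theorem tv_smul (F : M → ℝ → EE N) (q : M) (t r : ℝ) (c : Fin n → ℝ) :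
    tv F q t (r • c) = r • tv F q t c := by
  unfold tv
  rw [Finset.smul_sum]
  exact Finset.sum_congr rfl fun i _ => by rw [Pi.smul_apply, smul_eq_mul, mul_smul]

theorem gn_smul (F : M → ℝ → EE N) (q : M) (t r : ℝ) (c : Fin n → ℝ) :
    gn F q t (r • c) = r ^ 2 * gn F q t c := by
  unfold gn
  rw [tv_smul, norm_smul, mul_pow, Real.norm_eq_abs, sq_abs]

theorem An_smul (F : M → ℝ → EE N) (q : M) (t r : ℝ) (c : Fin n → ℝ) :
    An F q t (r • c) = r ^ 2 • An F q t c := by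
  unfold An
  rw [Finset.smul_sum]
  refine Finset.sum_congr rfl fun i _ => ?_
  rw [Finset.smul_sum]
  refine Finset.sum_congr rfl fun j _ => ?_
  rw [smul_smul, Pi.smul_apply, Pi.smul_apply, smul_eq_mul, smul_eq_mul]
  congr 1
  ring

theorem hn_smul (F ν : M → ℝ → EE N) (q : M) (t r : ℝ) (c : Fin n → ℝ) :
    hn F ν q t (r • c) = r ^ 2 * hn F ν q t c := by
  unfold hn
  rw [An_smul, real_inner_smul_left]

end Scale

section Time

variable {n : ℕ} {M : Type} [TopologicalSpace M] [ChartedSpace (EE n) M]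
  [IsManifold (𝓡 n) ∞ M] {J : Set ℝ} {F ν : M → ℝ → EE (n + 2)}

/-- continuity in time -/
theorem tcont (hSM : Helper35.PI.StSM) (hI2J : StI2J) (hI3J : StI3J) (hF : HFl n J F ν) {t₀ : ℝ}
    (ht : t₀ ∈ J) (x : M) :
    ContinuousAt (fun s => F x s) t₀ ∧ ContinuousAt (fun s => ν x s) t₀ ∧
      (∀ c : Fin n → ℝ, ContinuousAt (fun s => gn F x s c) t₀) ∧
      ∀ c : Fin n → ℝ, ContinuousAt (fun s => hn F ν x s c) t₀ := by
  have hJ : IsOpen J := hF.mcf.op
  have key : ∀ g : M → ℝ → EE (n + 2), ContMDiffOn ((𝓡 n).prod 𝓘(ℝ, ℝ)) 𝓘(ℝ, EE (n + 2)) ∞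
      (fun z : M × ℝ => g z.1 z.2) (univ ×ˢ J) → ContinuousAt (fun s => g x s) t₀ := by
    intro g hg
    have h1 : ContinuousAt (fun z : M × ℝ => g z.1 z.2) (x, t₀) :=
      hg.continuousOn.continuousAt ((isOpen_univ.prod hJ).mem_nhds ⟨mem_univ _, ht⟩)
    have h2 : ContinuousAt (fun s : ℝ => ((x, s) : M × ℝ)) t₀ :=
      (Continuous.prodMk_right x).continuousAt
    exact ContinuousAt.comp (f := fun s : ℝ => ((x, s) : M × ℝ))
      (g := fun z : M × ℝ => g z.1 z.2) (x := t₀) h1 h2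
  have hcν := key ν hF.sν
  refine ⟨key F hF.mcf.smooth, hcν, ?_⟩
  have hsrc : x ∈ (chartAt (EE n) x).source := mem_chart_source _ _
  let f : EE n × ℝ → EE (n + 2) := fun z => F ((chartAt (EE n) x).symm z.1) z.2
  have hf : ContDiffAt ℝ ∞ f (chartAt (EE n) x x, t₀) := by
    apply (hI2J n (n + 2) M J F hF.mcf.toIsImmJ x).contDiffAt
    exact ((chartAt (EE n) x).open_target.prod hJ).mem_nhds
      ⟨(chartAt (EE n) x).map_source hsrc, ht⟩
  have hLI : LI (fun y => f (y, (chartAt (EE n) x x, t₀).2)) (chartAt (EE n) x x, t₀).1 :=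
    (hI3J n (n + 2) M J F hF.mcf.toIsImmJ x x t₀ ht hsrc).1
  obtain ⟨hev, hj, -, -, -, -, hs, -, -, -⟩ := hSM n (n + 2) f (chartAt (EE n) x x, t₀) hf hLI
  have hm : ContinuousAt (fun s : ℝ => ((chartAt (EE n) x x, s) : EE n × ℝ)) t₀ :=
    (Continuous.prodMk_right _).continuousAt
  have h1 : ∀ i, ContinuousAt (fun s => dv1 (loc (n := n) F x s) (chartAt (EE n) x x) i) t₀ := by
    intro i
    have h2 : ContinuousAt (fun s : ℝ => jg f (chartAt (EE n) x x, s) i) t₀ :=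
      ContinuousAt.comp (g := fun z => jg f z i)
        (f := fun s : ℝ => ((chartAt (EE n) x x, s) : EE n × ℝ)) (x := t₀)
        (hj i).continuousAt hm
    refine h2.congr ?_
    filter_upwards [hm.eventually hev] with s hs'
    exact (hs'.2.2.1 i).symm
  have h3 : ∀ i j, ContinuousAt
      (fun s => sff (loc (n := n) F x s) (chartAt (EE n) x x) i j) t₀ := fun i j =>
    ContinuousAt.comp (g := fun z : EE n × ℝ => sff (fun y => f (y, z.2)) z.1 i j)
      (f := fun s : ℝ => ((chartAt (EE n) x x, s) : EE n × ℝ)) (x := t₀)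
      (hs i j).continuousAt hm
  refine ⟨fun c => ?_, fun c => ?_⟩
  · have h4 : ContinuousAt (fun s => tv F x s c) t₀ :=
      tendsto_finsetSum _ fun i _ => (h1 i).const_smul (c i)
    exact h4.norm.pow 2
  · have h4 : ContinuousAt (fun s => An F x s c) t₀ :=
      tendsto_finsetSum _ fun i _ => tendsto_finsetSum _ fun j _ =>
        (h3 i j).const_smul (c i * c j)
    exact Filter.Tendsto.inner h4 hcν

/-- every chord or normal curvature at time `t₀` is a limit of such at nearby times -/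
theorem approx (hSM : Helper35.PI.StSM) (hI2J : StI2J) (hI3J : StI3J) (hF : HFl n J F ν) {t₀ : ℝ}
    (ht : t₀ ∈ J) (x : M) (z : ℝ) (hz : z ∈ ZS n F ν x t₀) :
    ∃ ζ : ℝ → ℝ, Tendsto ζ (𝓝 t₀) (𝓝 z) ∧ ∀ᶠ s in 𝓝 t₀, ζ s ∈ ZS n F ν x s := by
  obtain ⟨hFx, hνx, hg, hh⟩ := tcont hSM hI2J hI3J hF ht x
  rcases hz with ⟨y, hy, rfl⟩ | ⟨c, hc, rfl⟩
  · obtain ⟨hFy, -, -, -⟩ := tcont hSM hI2J hI3J hF ht y
    have hsub : ContinuousAt (fun s => F y s - F x s) t₀ := hFy.sub hFx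
    have hne : ‖F y t₀ - F x t₀‖ ^ 2 ≠ 0 := by
      have : 0 < ‖F y t₀ - F x t₀‖ := norm_pos_iff.2 (sub_ne_zero.2 hy)
      positivity
    refine ⟨fun s => zch F ν x y s, ?_, ?_⟩
    · have h5 : ContinuousAt (fun s => 2 * (inner ℝ (F y s - F x s) (ν x s) : ℝ)) t₀ :=
        (Filter.Tendsto.inner hsub hνx).const_mul 2
      exact Filter.Tendsto.div h5 (hsub.norm.pow 2) hne
    · have h6 : ∀ᶠ s in 𝓝 t₀, F y s - F x s ≠ 0 := hsub.eventually_ne (sub_ne_zero.2 hy)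
      filter_upwards [h6] with s hs
      exact Or.inl ⟨y, sub_ne_zero.1 hs, rfl⟩
  · refine ⟨fun s => hn F ν x s c / gn F x s c, ?_, ?_⟩
    · have hg1 : Tendsto (fun s => gn F x s c) (𝓝 t₀) (𝓝 1) := by
        rw [← hc]
        exact hg c
      have hh1 : Tendsto (fun s => hn F ν x s c) (𝓝 t₀) (𝓝 (hn F ν x t₀ c)) := hh c
      have h7 := hh1.div hg1 one_ne_zero
      rw [div_one] at h7
      exact h7
    · have h8 : ∀ᶠ s in 𝓝 t₀, 0 < gn F x s c :=
        (hg c).eventually (lt_mem_nhds (show (0 : ℝ) < gn F x t₀ c by rw [hc]; exact one_pos))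
      filter_upwards [h8] with s hs
      have hsq : 0 < Real.sqrt (gn F x s c) := Real.sqrt_pos.2 hs
      have h9 : (1 / Real.sqrt (gn F x s c)) ^ 2 = 1 / gn F x s c := by
        rw [div_pow, one_pow, Real.sq_sqrt hs.le]
      refine Or.inr ⟨(1 / Real.sqrt (gn F x s c)) • c, ?_, ?_⟩
      · rw [gn_smul, h9]
        field_simp
      · rw [hn_smul, h9]
        ring

/-- the pinching is monotone in the constant -/
theorem pin_mono {k k' t : ℝ} (hr : 0 < rr n t) (hk : k ≤ k') (h : PinK n k F ν t) :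
    PinK n k' F ν t := by
  intro x z₁ h₁ z₂ h₂
  have h3 := h x z₁ h₁ z₂ h₂
  have h4 : k / rr n t ≤ k' / rr n t := div_le_div_of_nonneg_right hk hr.le
  nlinarith [sq_nonneg z₁]

end Time

/-- continuous induction -/
theorem cont_ind (A : ℝ → Prop) (t₁ t₂ : ℝ) (h12 : t₁ ≤ t₂) (h0 : A t₁)
    (hcl : ∀ t, t₁ < t → t ≤ t₂ → (∀ u, t₁ ≤ u → u < t → A u) → A t)
    (hop : ∀ t, t₁ ≤ t → t < t₂ → (∀ u, t₁ ≤ u → u ≤ t → A u) →
      ∃ δ > 0, ∀ u, t < u → u < t + δ → A u) : ∀ t, t₁ ≤ t → t ≤ t₂ → A t := by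
  set S : Set ℝ := {t | t₁ ≤ t ∧ t ≤ t₂ ∧ ∀ u, t₁ ≤ u → u ≤ t → A u} with hS
  have h1 : t₁ ∈ S := ⟨le_refl _, h12, fun u hu hu' => by rwa [le_antisymm hu' hu]⟩
  have hb : BddAbove S := ⟨t₂, fun t ht => ht.2.1⟩
  have hs1 : t₁ ≤ sSup S := le_csSup hb h1
  have hs2 : sSup S ≤ t₂ := csSup_le ⟨t₁, h1⟩ fun t ht => ht.2.1
  have h3 : ∀ u, t₁ ≤ u → u < sSup S → A u := by
    intro u hu hu'
    obtain ⟨t, ht, hut⟩ := exists_lt_of_lt_csSup ⟨t₁, h1⟩ hu'
    exact ht.2.2 u hu hut.le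
  have h4 : A (sSup S) := by
    rcases hs1.eq_or_lt with h | h
    · rwa [← h]
    · exact hcl _ h hs2 h3
  have h5 : ∀ u, t₁ ≤ u → u ≤ sSup S → A u := by
    intro u hu hu'
    rcases hu'.eq_or_lt with h | h
    · rwa [h]
    · exact h3 u hu h
  rcases hs2.eq_or_lt with h | h
  · intro t ht ht'
    exact h5 t ht (by rw [h]; exact ht')
  · exfalso
    obtain ⟨δ, hδ, h6⟩ := hop _ hs1 h h5
    set v := min (sSup S + δ / 2) t₂ with hv
    have hv1 : sSup S < v := lt_min (by linarith) h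
    have hv2 : v ≤ t₂ := min_le_right _ _
    have hv3 : v ≤ sSup S + δ / 2 := min_le_left _ _
    have h7 : v ∈ S := by
      refine ⟨hs1.trans hv1.le, hv2, fun u hu hu' => ?_⟩
      rcases le_or_gt u (sSup S) with h8 | h8
      · exact h5 u hu h8
      · exact h6 u h8 (by linarith)
    exact absurd (le_csSup hb h7) (not_le.2 hv1)

theorem hPRS (hTP1 : StTP1) (hCPZ : StCPZ) (hINO : StINO) (hINC : StINC) (hSM : Helper35.PI.StSM)
    (hI2J : StI2J) (hI3J : StI3J) : StPRS := by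
  intro n hn1 M _ _ _ _ _ J F ν hF t₁ t₂ h12 hJ k₀ k hk0 hkk hk1 hinj hpin
  have hJo : IsOpen J := hF.mcf.op
  set ε : ℝ := (k - k₀) / (2 * (1 + t₂ - t₁)) with hε
  have hD : 0 < 1 + t₂ - t₁ := by linarith
  have hε0 : 0 < ε := by
    rw [hε]
    exact div_pos (by linarith) (by linarith)
  have hεD : ε * (1 + t₂ - t₁) = (k - k₀) / 2 := by
    rw [hε]
    field_simp
  set κ : ℝ → ℝ := fun t => k₀ + ε * (1 + t - t₁) with hκ
  have hκlo : ∀ t, t₁ ≤ t → k₀ < κ t := by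
    intro t ht
    have : 0 < ε * (1 + t - t₁) := mul_pos hε0 (by linarith)
    show k₀ < k₀ + ε * (1 + t - t₁)
    linarith
  have hκhi : ∀ t, t ≤ t₂ → κ t < k := by
    intro t ht
    have : ε * (1 + t - t₁) ≤ ε * (1 + t₂ - t₁) :=
      mul_le_mul_of_nonneg_left (by linarith) hε0.le
    show k₀ + ε * (1 + t - t₁) < k
    linarith
  have hκc : Continuous κ := by
    show Continuous (fun t => k₀ + ε * (1 + t - t₁))
    fun_prop
  have hrc : Continuous (fun t => rr n t) := by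
    unfold rr
    fun_prop
  have hmain : ∀ t, t₁ ≤ t → t ≤ t₂ →
      (Function.Injective (fun q => F q t) ∧ PinK n (κ t) F ν t) := by
    refine cont_ind (fun t => Function.Injective (fun q => F q t) ∧ PinK n (κ t) F ν t)
      t₁ t₂ h12 ⟨hinj, pin_mono (hF.r0 _ (hJ ⟨le_refl _, h12⟩)) (hκlo t₁ (le_refl _)).le hpin⟩
      ?_ ?_
    · intro t ht1 ht2 hA
      have htJ : t ∈ J := hJ ⟨ht1.le, ht2⟩
      have hsub : Icc t₁ t ⊆ J := fun s hs => hJ ⟨hs.1, hs.2.trans ht2⟩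
      have hi : Function.Injective (fun q => F q t) := by
        refine hINC n hn1 M J F ν hF t₁ t ht1 hsub k (hk0.trans hkk) hk1 fun s hs => ?_
        have h3 := hA s hs.1 hs.2
        exact ⟨h3.1, pin_mono (hF.r0 _ (hsub ⟨hs.1, hs.2.le⟩))
          (hκhi s (hs.2.le.trans ht2)).le h3.2⟩
      refine ⟨hi, ?_⟩
      -- the weak inequality at time `t`
      have hweak : ∀ x, ∀ z₁ ∈ ZS n F ν x t, ∀ z₂ ∈ ZS n F ν x t,
          (1 - κ t) * z₁ ^ 2 - z₁ * z₂ ≤ κ t / rr n t := by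
        intro x z₁ hz₁ z₂ hz₂
        obtain ⟨ζ₁, hζ₁, hm₁⟩ := approx hSM hI2J hI3J hF htJ x z₁ hz₁
        obtain ⟨ζ₂, hζ₂, hm₂⟩ := approx hSM hI2J hI3J hF htJ x z₂ hz₂
        have hκt : Tendsto κ (𝓝 t) (𝓝 (κ t)) := hκc.continuousAt
        have hl : Tendsto (fun s => (1 - κ s) * ζ₁ s ^ 2 - ζ₁ s * ζ₂ s) (𝓝 t)
            (𝓝 ((1 - κ t) * z₁ ^ 2 - z₁ * z₂)) :=
          ((tendsto_const_nhds.sub hκt).mul (hζ₁.pow 2)).sub (hζ₁.mul hζ₂)
        have hr : Tendsto (fun s => κ s / rr n s) (𝓝 t) (𝓝 (κ t / rr n t)) :=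
          hκt.div hrc.continuousAt (hF.r0 t htJ).ne'
        refine le_of_tendsto_of_tendsto (hl.mono_left nhdsWithin_le_nhds)
          (hr.mono_left (nhdsWithin_le_nhds (s := Iio t))) ?_
        have h5 : ∀ᶠ s in 𝓝[<] t, t₁ < s ∧ s < t := Ioo_mem_nhdsLT ht1
        filter_upwards [h5, hm₁.filter_mono nhdsWithin_le_nhds,
          hm₂.filter_mono nhdsWithin_le_nhds] with s hs hs₁ hs₂
        exact ((hA s hs.1.le hs.2).2 x _ hs₁ _ hs₂).le
      intro x z₁ hz₁ z₂ hz₂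
      rcases (hweak x z₁ hz₁ z₂ hz₂).eq_or_lt with he | hl
      · exfalso
        refine hTP1 n M J F ν hF x t htJ κ ε ?_ ?_ hε0 (hk0.trans (hκlo t ht1.le))
          ((hκhi t ht2).le.trans hk1.le) z₁ hz₁ z₂ hz₂ he ?_
        · show ContDiffAt ℝ 2 (fun t => k₀ + ε * (1 + t - t₁)) t
          fun_prop
        · have h6 : HasDerivAt (fun s : ℝ => k₀ + ε * (1 + s - t₁)) (ε * 1) t :=
            ((((hasDerivAt_id t).const_add 1).sub_const t₁).const_mul ε).const_add k₀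
          rw [mul_one] at h6
          exact h6
        · have h7 : ∀ᶠ p : M × ℝ in 𝓝 (x, t), t₁ < p.2 :=
            continuous_snd.continuousAt.eventually (lt_mem_nhds ht1)
          filter_upwards [h7] with p hp hpt w₁ hw₁ w₂ hw₂
          rcases hpt.eq_or_lt with h8 | h8
          · rw [h8] at hw₁ hw₂ ⊢
            exact hweak p.1 w₁ hw₁ w₂ hw₂
          · exact ((hA p.2 hp.le h8).2 p.1 w₁ hw₁ w₂ hw₂).le
      · exact hl
    · intro t ht1 ht2 hA
      have htJ : t ∈ J := hJ ⟨ht1, ht2.le⟩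
      have hAt := hA t ht1 (le_refl _)
      have hev := (hINO n (n + 2) M J F hF.mcf.toIsImmJ t htJ).2 hAt.1
      obtain ⟨η, hη, hball⟩ := Metric.eventually_nhds_iff.1
        (hev.and (hJo.mem_nhds htJ : ∀ᶠ s in 𝓝 t, s ∈ J))
      have hIcc : ∀ s ∈ Icc t (t + η / 2), Function.Injective (fun q => F q s) ∧ s ∈ J := by
        intro s hs
        apply hball
        rw [Real.dist_eq, abs_lt]
        constructor
        · linarith [hs.1]
        · linarith [hs.2]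
      have hK := hCPZ n M J F ν hF t (t + η / 2) (fun s hs => (hIcc s hs).2)
        (fun s hs => (hIcc s hs).1)
      set K : Set ((M × ℝ) × ℝ) :=
        {p : (M × ℝ) × ℝ | p.1.2 ∈ Icc t (t + η / 2) ∧ p.2 ∈ ZS n F ν p.1.1 p.1.2} with hKdef
      set B : Set (((M × ℝ) × ℝ) × ((M × ℝ) × ℝ)) := {w | w.1.1 = w.2.1} ∩
        {w | κ w.1.1.2 ≤ rr n w.1.1.2 *
          ((1 - κ w.1.1.2) * w.1.2 ^ 2 - w.1.2 * w.2.2)} with hBdef
      have hBc : IsClosed B := by
        refine IsClosed.inter ?_ ?_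
        · exact isClosed_eq (by fun_prop) (by fun_prop)
        · have hκ' : Continuous (fun w : ((M × ℝ) × ℝ) × ((M × ℝ) × ℝ) => κ w.1.1.2) :=
            hκc.comp (by fun_prop)
          have hr' : Continuous (fun w : ((M × ℝ) × ℝ) × ((M × ℝ) × ℝ) => rr n w.1.1.2) :=
            hrc.comp (by fun_prop)
          exact isClosed_le hκ' (by fun_prop)
      have hcomp : IsCompact ((K ×ˢ K) ∩ B) := (hK.prod hK).inter_right hBc
      have himg : IsCompact ((fun w : ((M × ℝ) × ℝ) × ((M × ℝ) × ℝ) => w.1.1.2) ''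
          ((K ×ˢ K) ∩ B)) := hcomp.image (by fun_prop)
      have hpos : ∀ s ∈ J, 0 < rr n s := hF.r0
      have hnot : t ∉ (fun w : ((M × ℝ) × ℝ) × ((M × ℝ) × ℝ) => w.1.1.2) ''
          ((K ×ˢ K) ∩ B) := by
        rintro ⟨w, ⟨⟨hw1, hw2⟩, hw3, hw4⟩, hw5⟩
        have hw3' : w.1.1 = w.2.1 := hw3
        have hw5' : w.1.1.2 = t := hw5
        have hw4' : κ w.1.1.2 ≤ rr n w.1.1.2 *
          ((1 - κ w.1.1.2) * w.1.2 ^ 2 - w.1.2 * w.2.2) := hw4
        have hz1 : w.1.2 ∈ ZS n F ν w.1.1.1 w.1.1.2 := hw1.2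
        have hz2 : w.2.2 ∈ ZS n F ν w.2.1.1 w.2.1.2 := hw2.2
        rw [← hw3'] at hz2
        rw [hw5'] at hz1 hz2 hw4'
        have h9 := hAt.2 _ _ hz1 _ hz2
        rw [lt_div_iff₀ (hpos t htJ)] at h9
        linarith
      have hfar : ∀ᶠ s in 𝓝 t, s ∉ (fun w : ((M × ℝ) × ℝ) × ((M × ℝ) × ℝ) => w.1.1.2) ''
          ((K ×ˢ K) ∩ B) := himg.isClosed.isOpen_compl.mem_nhds hnot
      obtain ⟨δ, hδ, hδb⟩ := Metric.eventually_nhds_iff.1 hfar
      refine ⟨min δ (η / 2), lt_min hδ (by linarith), fun s hs1 hs2 => ?_⟩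
      have hs3 : s < t + δ := lt_of_lt_of_le hs2 (by linarith [min_le_left δ (η / 2)])
      have hs4 : s < t + η / 2 := lt_of_lt_of_le hs2 (by linarith [min_le_right δ (η / 2)])
      have hsI : s ∈ Icc t (t + η / 2) := ⟨hs1.le, hs4.le⟩
      refine ⟨(hIcc s hsI).1, ?_⟩
      intro x z₁ hz₁ z₂ hz₂
      by_contra hcon
      push Not at hcon
      have h10 : s ∉ (fun w : ((M × ℝ) × ℝ) × ((M × ℝ) × ℝ) => w.1.1.2) ''
          ((K ×ˢ K) ∩ B) := by
        apply hδb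
        rw [Real.dist_eq, abs_lt]
        constructor
        · linarith
        · linarith
      apply h10
      refine ⟨(((x, s), z₁), ((x, s), z₂)), ⟨⟨⟨hsI, hz₁⟩, ⟨hsI, hz₂⟩⟩, rfl, ?_⟩, rfl⟩
      show κ s ≤ rr n s * ((1 - κ s) * z₁ ^ 2 - z₁ * z₂)
      rw [div_le_iff₀ (hpos s (hIcc s hsI).2)] at hcon
      linarith
  intro t ht
  have h := hmain t ht.1 ht.2
  exact ⟨h.1, pin_mono (hF.r0 _ (hJ ht)) (hκhi t ht.2).le h.2⟩

end Helper64.HSF
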